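import Pool.Agent.Q266.Blk6

/-!
# MP_8e4c55, question Q1: block parallel addition on a binary alphabet

For the real root `β ≈ -1.3247` of `X ^ 3 - X + 1` (the negative of the smallest Pisot number)
addition on each of the two binary alphabets `{0, 1}` and `{-1, 0}` is `60`-block parallel in
base `β`, computed by a `3`-local function. So the answer to the question is yes.
-/

namespace Pool.Agent.Results.MP_8e4c55_nt.BinaryBlockParallel

open scoped Pointwise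
open Pool.Q266.Blk

/-- `A` is a binary alphabet: two consecutive integers, one of them `0` -/
def IsBinary (A : Set ℤ) : Prop := A = {0, 1} ∨ A = {-1, 0}

/-- the set `A_(k)` of the numbers `a_0 + a_1 β + ... + a_{k-1} β^(k-1)` with all `a_i ∈ A` -/
def blocks (β : ℂ) (A : Set ℤ) (k : ℕ) : Set ℂ :=
  {z | ∃ a : ℕ → ℤ, (∀ i, a i ∈ A) ∧ z = ∑ i ∈ Finset.range k, (a i : ℂ) * β ^ i}

/-- `φ` is `p`-local: `φ(u)_j = Φ(u_{j+t}, ..., u_{j-r})` with `p = r + t + 1` -/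
def IsLocal {D E : Type*} (φ : (ℤ → D) → (ℤ → E)) (p : ℕ) : Prop :=
  ∃ r t : ℕ, p = r + t + 1 ∧ ∃ Φ : (Fin p → D) → E,
    ∀ (u : ℤ → D) (j : ℤ), φ u j = Φ (fun i => u (j + (t : ℤ) - ((i : ℕ) : ℤ)))

/-- `φ` is a digit set conversion in base `β` from `D` to `E` -/
def IsConversion (β : ℂ) (D E : Set ℂ) (φ : (ℤ → D) → (ℤ → E)) : Prop :=
  ∀ u : ℤ → D, {j : ℤ | (u j : ℂ) ≠ 0}.Finite →
    {j : ℤ | (φ u j : ℂ) ≠ 0}.Finite ∧
      ∑ᶠ j : ℤ, (φ u j : ℂ) * β ^ j = ∑ᶠ j : ℤ, (u j : ℂ) * β ^ j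

/-- addition on `A` is `k`-block parallel in base `β`, by a `p`-local function -/
def BlockParallelWith (β : ℂ) (A : Set ℤ) (k p : ℕ) : Prop :=
  ∃ φ : (ℤ → ↥(blocks β A k + blocks β A k)) → (ℤ → ↥(blocks β A k)),
    IsConversion (β ^ k) (blocks β A k + blocks β A k) (blocks β A k) φ ∧ IsLocal φ p

/-- addition on `A` is block parallel in base `β` -/
def BlockParallel (β : ℂ) (A : Set ℤ) : Prop :=
  ∃ k : ℕ, 1 ≤ k ∧ ∃ p : ℕ, BlockParallelWith β A k p

variable (X : Dat)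

theorem mem_pair {e a : ℤ} (h : a ∈ ({0, e} : Set ℤ)) : a = 0 ∨ a = e := by
  simpa using h

theorem tri_of_mem {e : ℤ} (he : e = 1 ∨ e = -1) (x : ℂ)
    (hx : x ∈ blocks (X.β : ℂ) {0, e} 60 + blocks (X.β : ℂ) {0, e} 60) :
    ∃ r : ℤ × ℤ × ℤ, ((ev X.β r : ℝ) : ℂ) = e * x ∧
      |ev X.β r| ≤ 6.2 * X.β ^ 60 ∧ ‖ev X.g r‖ ≤ 15.3 ∧ (x = 0 → r = 0) := by
  by_cases h0 : x = 0
  · refine ⟨0, ?_, ?_, ?_, fun _ => rfl⟩
    · rw [ev_zero, h0]; simp
    · rw [ev_zero, abs_zero]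
      have := X.B_ge
      linarith
    · rw [ev_zero, norm_zero]; norm_num
  · obtain ⟨s, ⟨a, ha, rfl⟩, t, ⟨b, hb, rfl⟩, hst⟩ := hx
    obtain ⟨r, h1, h2, h3⟩ := X.tri_exists (fun i => e * (a i + b i)) (by
      intro i
      have p := mem_pair (ha i)
      have q := mem_pair (hb i)
      rcases he with rfl | rfl <;> rcases p with p | p <;> rcases q with q | q <;>
        rw [p, q] <;> norm_num)
    refine ⟨r, ?_, h2, h3, fun h => absurd h h0⟩
    rw [h1, ← hst]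
    push_cast
    rw [← Finset.sum_add_distrib, Finset.mul_sum]
    apply Finset.sum_congr rfl
    intro i _
    ring

theorem mem_of_rep {e : ℤ} (s : ℝ) (h : Rep X.β 60 s) :
    (e : ℂ) * (s : ℂ) ∈ blocks (X.β : ℂ) {0, e} 60 := by
  obtain ⟨a, ha, rfl⟩ := h
  refine ⟨fun i => e * a i, ?_, ?_⟩
  · intro i
    rcases ha i with h | h <;> simp [h]
  · push_cast
    rw [Finset.mul_sum]
    apply Finset.sum_congr rfl
    intro i _
    ring

theorem parallel {e : ℤ} (he : e = 1 ∨ e = -1) :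
    BlockParallelWith (X.β : ℂ) {0, e} 60 3 := by
  have hee : (e : ℂ) * e = 1 := by rcases he with rfl | rfl <;> norm_num
  choose r hr1 hr2 hr3 hr4 using fun x : ↥(blocks (X.β : ℂ) {0, e} 60
    + blocks (X.β : ℂ) {0, e} 60) => tri_of_mem X he x x.2
  choose q hq1 hq2 hq3 hq4 using fun x y : ↥(blocks (X.β : ℂ) {0, e} 60
    + blocks (X.β : ℂ) {0, e} 60) => X.carry_exists (r x) (r y) ((x : ℂ) = 0 ∧ (y : ℂ) = 0)
      (fun h => ⟨hr4 x h.1, hr4 y h.2⟩)
  have hz := fun x y w => X.z_rep (r y) (q x y) (q y w) (r x) (hr2 y) (hr3 x) (hq1 x y)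
    (hq2 x y) (hq3 x y) (r w) (hr2 w) (hq1 y w) (hq2 y w) (hq3 y w)
  have hBpos : (0 : ℝ) < X.β ^ 60 := by linarith [X.B_ge]
  have hB : ((X.β : ℂ) ^ 60) ≠ 0 := by
    have : ((X.β ^ 60 : ℝ) : ℂ) ≠ 0 := by exact_mod_cast hBpos.ne'
    rwa [Complex.ofReal_pow] at this
  refine ⟨fun u j => ⟨_, mem_of_rep X (e := e) _ (hz (u (j + 1)) (u j) (u (j - 1)))⟩, ?_,
    1, 1, rfl, fun f => ⟨_, mem_of_rep X (e := e) _ (hz (f 0) (f 1) (f 2))⟩, ?_⟩
  · intro u hu
    -- the value of a digit of the output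
    have val : ∀ j : ℤ, (e : ℂ) * ((ev X.β (r (u j) - mulb^[60] (q (u (j + 1)) (u j))
        + q (u j) (u (j - 1))) : ℝ) : ℂ) = (u j : ℂ)
          - (X.β : ℂ) ^ 60 * ((e : ℂ) * ((ev X.β (q (u (j + 1)) (u j)) : ℝ) : ℂ))
          + (e : ℂ) * ((ev X.β (q (u (j - 1 + 1)) (u (j - 1))) : ℝ) : ℂ) := by
      intro j
      rw [ev_add, ev_sub, ev_iter X.hβ, sub_add_cancel]
      push_cast
      rw [hr1 (u j)]
      linear_combination ((u j : ℂ)) * hee
    have hQ : (Function.support fun j : ℤ =>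
        (e : ℂ) * ((ev X.β (q (u (j + 1)) (u j)) : ℝ) : ℂ)).Finite := by
      refine (hu.union (hu.image fun j => j - 1)).subset fun j hj => ?_
      simp only [Function.mem_support] at hj
      by_contra hcon
      simp only [Set.mem_union, Set.mem_ofPred_eq, Set.mem_image, not_or, not_exists,
        not_and] at hcon
      obtain ⟨h1, h2⟩ := hcon
      push Not at h1
      have h3 : (u (j + 1) : ℂ) = 0 := by
        by_contra h
        exact h2 (j + 1) h (by ring)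
      apply hj
      rw [hq4 _ _ ⟨h3, h1⟩, ev_zero]
      simp
    constructor
    · refine ((hu.union (hu.image fun j => j - 1)).union (hu.image fun j => j + 1)).subset
        fun j hj => ?_
      by_contra hcon
      simp only [Set.mem_union, Set.mem_ofPred_eq, Set.mem_image, not_or, not_exists,
        not_and] at hcon
      obtain ⟨⟨h1, h2⟩, h3⟩ := hcon
      push Not at h1
      have h4 : (u (j + 1) : ℂ) = 0 := by
        by_contra h
        exact h2 (j + 1) h (by ring)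
      have h5 : (u (j - 1) : ℂ) = 0 := by
        by_contra h
        exact h3 (j - 1) h (by ring)
      apply hj
      show (e : ℂ) * ((ev X.β (r (u j) - mulb^[60] (q (u (j + 1)) (u j))
        + q (u j) (u (j - 1))) : ℝ) : ℂ) = 0
      rw [ev_add, ev_sub, ev_iter X.hβ, hq4 _ _ ⟨h4, h1⟩, hq4 _ _ ⟨h1, h5⟩, hr4 _ h1, ev_zero]
      simp
    · show ∑ᶠ j : ℤ, (e : ℂ) * ((ev X.β (r (u j) - mulb^[60] (q (u (j + 1)) (u j))
        + q (u j) (u (j - 1))) : ℝ) : ℂ) * ((X.β : ℂ) ^ 60) ^ j = _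
      simp_rw [val]
      exact telescope hB (fun j => (u j : ℂ))
        (fun j => (e : ℂ) * ((ev X.β (q (u (j + 1)) (u j)) : ℝ) : ℂ)) hu hQ
  · intro u j
    have e0 : j + ((1 : ℕ) : ℤ) - (((0 : Fin 3) : ℕ) : ℤ) = j + 1 := by simp
    have e1 : j + ((1 : ℕ) : ℤ) - (((1 : Fin 3) : ℕ) : ℤ) = j := by simp
    have e2 : j + ((1 : ℕ) : ℤ) - (((2 : Fin 3) : ℕ) : ℤ) = j - 1 := by
      simp; ring
    apply Subtype.ext
    simp only [e0, e1, e2]

theorem result : ∃ β : ℂ, 1 < ‖β‖ ∧ β ^ 3 = β - 1 ∧ β.im = 0 ∧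
    (∀ A : Set ℤ, IsBinary A → BlockParallelWith β A 60 3) ∧
    (∀ A : Set ℤ, IsBinary A → BlockParallel β A) := by
  obtain ⟨X⟩ := dat_exists
  have hmain : ∀ A : Set ℤ, IsBinary A → BlockParallelWith (X.β : ℂ) A 60 3 := by
    rintro A (rfl | rfl)
    · exact parallel X (Or.inl rfl)
    · rw [Set.pair_comm]
      exact parallel X (Or.inr rfl)
  refine ⟨(X.β : ℂ), ?_, ?_, Complex.ofReal_im _, hmain, fun A hA => ⟨60, by norm_num, 3,
    hmain A hA⟩⟩
  · rw [Complex.norm_real, Real.norm_eq_abs, lt_abs]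
    right
    linarith [X.hi]
  · have := X.hβ
    exact_mod_cast this

end Pool.Agent.Results.MP_8e4c55_nt.BinaryBlockParallel
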